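import Mathlib
import Pool.Agent.Y748.SR.Stm4

set_option autoImplicit false
set_option linter.all false

/-! # Project SR: (DYA) -/

open Finset Filter Topology

namespace Pool.Agent.Y447.SR

open Pool.Agent.Y748 Pool.Agent.Y748.SR

theorem nrm_lt {s t : ℝ} (hs : 1 ≤ s) (h : s < t) : nrm s < nrm t := by
  unfold nrm
  apply div_lt_div_of_pos_right _ (by positivity)
  have h1 : 0 ≤ Real.log s := Real.log_nonneg hs
  have h2 : Real.log s < Real.log t := Real.log_lt_log (by linarith) h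
  nlinarith

theorem nrm_le {s t : ℝ} (hs : 1 ≤ s) (h : s ≤ t) : nrm s ≤ nrm t := by
  rcases h.lt_or_eq with h | h
  · exact (nrm_lt hs h).le
  · rw [h]

theorem nrm_double {t : ℝ} (ht : 1 ≤ t) : 2 * nrm t ≤ nrm (2 * t) := by
  unfold nrm
  rw [← mul_div_assoc]
  apply div_le_div_of_nonneg_right _ (by positivity)
  have h1 : Real.log t ≤ Real.log (2 * t) := Real.log_le_log (by linarith) (by linarith)
  nlinarith

theorem nrm_tend : Tendsto nrm atTop atTop := by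
  have h1 : Tendsto (fun t : ℝ => t / (2 * Real.pi)) atTop atTop :=
    tendsto_id.atTop_div_const (by positivity)
  refine tendsto_atTop_mono' atTop ?_ h1
  filter_upwards [eventually_ge_atTop (Real.exp 1)] with t ht
  unfold nrm
  apply div_le_div_of_nonneg_right _ (by positivity)
  have ht0 : 0 < t := (Real.exp_pos 1).trans_le ht
  have h2 : 1 ≤ Real.log t := (Real.le_log_iff_exp_le ht0).2 ht
  nlinarith

theorem sq_finite {u : ℕ → ℝ} (hu : Sq u) (y : ℝ) : {n : ℕ | u n ≤ y}.Finite := by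
  have h1 : ∀ᶠ n : ℕ in atTop, 1 / 2 < u n / n := hu.lim.eventually (lt_mem_nhds (by norm_num))
  have h2 : ∀ᶠ n : ℕ in atTop, 2 * y < (n : ℝ) :=
    tendsto_natCast_atTop_atTop.eventually_gt_atTop _
  obtain ⟨N, hN⟩ := eventually_atTop.1 (h1.and (h2.and (eventually_ge_atTop 1)))
  refine (Set.finite_Iio N).subset ?_
  intro n hn
  by_contra hcon
  have hnN : N ≤ n := not_lt.1 hcon
  obtain ⟨a1, a2, a3⟩ := hN n hnN
  have hn0 : (0 : ℝ) < n := by exact_mod_cast a3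
  rw [lt_div_iff₀ hn0] at a1
  have : u n ≤ y := hn
  linarith

theorem loc_card {u : ℕ → ℝ} (hu : Sq u) : ∃ C : ℝ, 0 ≤ C ∧ ∀ (κ : ℕ) (x : ℝ), 0 ≤ x →
    ∀ F : Finset ℕ, (∀ n ∈ F, 1 ≤ n ∧ x ≤ u n ∧ u n ≤ x + κ) →
      (F.card : ℝ) ≤ (κ + 1) * (C * Real.log (x + κ + 2)) := by
  obtain ⟨C, hC⟩ := hu.loc
  have hC0 : 0 ≤ C := by
    have h := hC 0 le_rfl
    have h2 : 0 < Real.log (0 + 2) := by
      rw [zero_add]; exact Real.log_pos (by norm_num)
    by_contra hcon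
    have h3 : C * Real.log (0 + 2) < 0 := mul_neg_of_neg_of_pos (not_le.1 hcon) h2
    have h4 : (0 : ℝ) ≤ ({n : ℕ | 1 ≤ n ∧ u n ∈ Set.Icc (0 : ℝ) (0 + 1)}.ncard : ℝ) :=
      Nat.cast_nonneg _
    linarith
  have hone : ∀ x : ℝ, 0 ≤ x → ∀ F : Finset ℕ, (∀ n ∈ F, 1 ≤ n ∧ x ≤ u n ∧ u n ≤ x + 1) →
      (F.card : ℝ) ≤ C * Real.log (x + 2) := by
    intro x hx F hF
    refine le_trans ?_ (hC x hx)
    have hfin : {n : ℕ | 1 ≤ n ∧ u n ∈ Set.Icc x (x + 1)}.Finite :=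
      (sq_finite hu (x + 1)).subset fun n hn => hn.2.2
    have hsub : (F : Set ℕ) ⊆ {n : ℕ | 1 ≤ n ∧ u n ∈ Set.Icc x (x + 1)} :=
      fun n hn => ⟨(hF n hn).1, (hF n hn).2⟩
    have h := Set.ncard_le_ncard hsub hfin
    rw [Set.ncard_coe_finset] at h
    exact_mod_cast h
  refine ⟨C, hC0, ?_⟩
  intro κ
  induction κ with
  | zero =>
    intro x hx F hF
    have h1 := hone x hx F (fun n hn => by
      have := hF n hn
      push_cast at this
      exact ⟨this.1, this.2.1, by linarith [this.2.2]⟩)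
    push_cast
    have e : x + 0 + 2 = x + 2 := by ring
    rw [e]; linarith
  | succ κ ih =>
    intro x hx F hF
    set F1 := F.filter fun n => u n ≤ x + κ with hF1
    set F2 := F.filter fun n => ¬ u n ≤ x + κ with hF2
    have hcard : F.card = F1.card + F2.card := (card_filter_add_card_filter_not _).symm
    have h1 := ih x hx F1 (fun n hn => by
      rw [hF1, mem_filter] at hn
      exact ⟨(hF n hn.1).1, (hF n hn.1).2.1, hn.2⟩)
    have hκ : (0 : ℝ) ≤ κ := Nat.cast_nonneg _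
    have h2 := hone (x + κ) (by linarith) F2 (fun n hn => by
      rw [hF2, mem_filter] at hn
      have := (hF n hn.1).2.2
      push_cast at this
      exact ⟨(hF n hn.1).1, (not_le.1 hn.2).le, by linarith⟩)
    have h3 : Real.log (x + κ + 2) ≤ Real.log (x + (κ + 1 : ℕ) + 2) := by
      apply Real.log_le_log (by linarith)
      push_cast; linarith
    have h4 : C * Real.log (x + κ + 2) ≤ C * Real.log (x + (κ + 1 : ℕ) + 2) :=
      mul_le_mul_of_nonneg_left h3 hC0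
    rw [hcard]
    push_cast at h4 ⊢
    nlinarith

/-- the double sum over all points up to `X` -/
noncomputable def PP (γ : ℕ → ℝ) (f : ℝ → ℝ) (M : ℕ) : ℝ :=
  ∑ n ∈ Ioc 0 M, ∑ m ∈ Ioc 0 M, f (nrm (γ n) - nrm (γ m))

theorem split_sum (g : ℕ → ℕ → ℝ) (a b : ℕ) (hab : a ≤ b) :
    ∑ n ∈ Ioc 0 b, ∑ m ∈ Ioc 0 b, g n m = (∑ n ∈ Ioc 0 a, ∑ m ∈ Ioc 0 a, g n m) +
      (∑ n ∈ Ioc a b, ∑ m ∈ Ioc a b, g n m) +
      ((∑ n ∈ Ioc 0 a, ∑ m ∈ Ioc a b, g n m) + ∑ n ∈ Ioc a b, ∑ m ∈ Ioc 0 a, g n m) := by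
  have hU : ∀ F : ℕ → ℝ, ∑ n ∈ Ioc 0 b, F n = (∑ n ∈ Ioc 0 a, F n) + ∑ n ∈ Ioc a b, F n := by
    intro F
    rw [← sum_union]
    · congr 1
      ext n
      simp only [mem_union, mem_Ioc]
      omega
    · rw [disjoint_left]
      intro n hn hn'
      rw [mem_Ioc] at hn hn'
      omega
  rw [hU]
  have e1 : ∀ s : Finset ℕ, ∑ n ∈ s, ∑ m ∈ Ioc 0 b, g n m =
      (∑ n ∈ s, ∑ m ∈ Ioc 0 a, g n m) + ∑ n ∈ s, ∑ m ∈ Ioc a b, g n m := by
    intro s
    rw [← sum_add_distrib]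
    exact sum_congr rfl fun n _ => hU _
  rw [e1, e1]
  ring

theorem sum_abs_le (A B F1 F2 : Finset ℕ) (g : ℕ → ℕ → ℝ) (b : ℝ)
    (hb : ∀ n ∈ A, ∀ m ∈ B, |g n m| ≤ if n ∈ F1 ∧ m ∈ F2 then b else 0) (hb0 : 0 ≤ b) :
    |∑ n ∈ A, ∑ m ∈ B, g n m| ≤ b * (F1.card * F2.card) := by
  classical
  calc |∑ n ∈ A, ∑ m ∈ B, g n m| ≤ ∑ n ∈ A, |∑ m ∈ B, g n m| := abs_sum_le_sum_abs _ _
    _ ≤ ∑ n ∈ A, ∑ m ∈ B, |g n m| := sum_le_sum fun n _ => abs_sum_le_sum_abs _ _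
    _ ≤ ∑ n ∈ A, ∑ m ∈ B, (if n ∈ F1 ∧ m ∈ F2 then b else 0) :=
        sum_le_sum fun n hn => sum_le_sum fun m hm => hb n hn m hm
    _ = ∑ p ∈ A ×ˢ B, (if p ∈ F1 ×ˢ F2 then b else 0) := by
        rw [sum_product]
        refine sum_congr rfl fun n _ => sum_congr rfl fun m _ => ?_
        simp only [mem_product]
    _ = ∑ p ∈ (A ×ˢ B).filter (fun p => p ∈ F1 ×ˢ F2), b := by rw [sum_filter]
    _ ≤ ∑ p ∈ F1 ×ˢ F2, b := by
        apply sum_le_sum_of_subset_of_nonneg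
        · intro p hp
          exact (mem_filter.1 hp).2
        · intro _ _ _
          exact hb0
    _ = _ := by
        rw [sum_const, card_product, nsmul_eq_mul]
        push_cast; ring

theorem t_DYA : S_DYA := by
  intro γ NZ hBlk f c η K B hη hcont hfK hfB hblock ε hε
  have hG := hBlk.good
  have hsq := hBlk.sq
  have hB0 : 0 ≤ B := (abs_nonneg _).trans (hfB 0)
  set u : ℕ → ℝ := fun n => nrm (γ n) with hu
  have hγ1 : 1 < γ 1 := by
    have h1 : 0 < nrm (γ 1) := hsq.pos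
    have h2 := hG.pos 1 le_rfl
    by_contra hcon
    have h3 : Real.log (γ 1) ≤ 0 := Real.log_nonpos h2.le (not_lt.1 hcon)
    have h4 : nrm (γ 1) ≤ 0 := by
      unfold nrm
      apply div_nonpos_of_nonpos_of_nonneg _ (by positivity)
      nlinarith
    linarith
  have hγn : ∀ n, 1 ≤ n → 1 < γ n := fun n hn => hγ1.trans_le (hG.mono le_rfl hn)
  obtain ⟨κ, hκ⟩ : ∃ κ : ℕ, K ≤ κ := ⟨⌈K⌉₊, Nat.le_ceil K⟩
  obtain ⟨C, hC0, hC⟩ := loc_card hsq
  -- the cross terms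
  obtain ⟨T0, hT0⟩ := hblock
  set ε1 := ε / 4 with hε1
  have hε10 : 0 < ε1 := by positivity
  set δ := ε1 / (8 * (B * ((κ + 1) * C) ^ 2 + 1)) with hδ
  have hδ0 : 0 < δ := by positivity
  have hlog : ∀ᶠ z : ℝ in atTop, Real.log z ^ 2 ≤ δ * z := by
    have h1 := (Real.isLittleO_pow_log_id_atTop (n := 2)).bound hδ0
    filter_upwards [h1, eventually_ge_atTop 0] with z hz hz0
    rw [Real.norm_eq_abs, Real.norm_eq_abs, id, abs_of_nonneg hz0,
      abs_of_nonneg (by positivity)] at hz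
    exact hz
  obtain ⟨z0, hz0⟩ := eventually_atTop.1 hlog
  obtain ⟨Tc, hTc⟩ := hG.cnt (1 / 6) (by norm_num)
  obtain ⟨Ty, hTy⟩ := eventually_atTop.1
    (nrm_tend.eventually_ge_atTop (max z0 (κ + 2)))
  set T1 := max (max T0 Tc) (max Ty 1) with hT1
  have hT11 : 1 ≤ T1 := (le_max_right _ _).trans (le_max_right _ _)
  have hcross : ∀ T, T1 ≤ T → |PP γ f (NZ (2 * T)) - PP γ f (NZ T) -
      c * ((NZ (2 * T) : ℝ) - NZ T)| ≤ (η + ε1) * ((NZ (2 * T) : ℝ) - NZ T) := by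
    intro T hT
    have hTT0 : T0 ≤ T := ((le_max_left _ _).trans (le_max_left _ _)).trans hT
    have hTTc : Tc ≤ T := ((le_max_right _ _).trans (le_max_left _ _)).trans hT
    have hTTy : Ty ≤ T := ((le_max_left _ _).trans (le_max_right _ _)).trans hT
    have hTT1 : 1 ≤ T := hT11.trans hT
    set y := nrm T with hy
    have hy1 := hTy T hTTy
    have hyz : z0 ≤ y := (le_max_left _ _).trans hy1
    have hyκ : (κ : ℝ) + 2 ≤ y := (le_max_right _ _).trans hy1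
    have hκ0 : (0 : ℝ) ≤ κ := Nat.cast_nonneg _
    have hab : NZ T ≤ NZ (2 * T) := hG.NZ_mono (by linarith)
    have hBT : y / 2 ≤ (NZ (2 * T) : ℝ) - NZ T := by
      have c1 := (hTc (2 * T) (by linarith)).1
      have c2 := (hTc T hTTc).2
      have c3 := nrm_double hTT1
      linarith
    have hblk := hT0 T hTT0
    set A := Ioc 0 (NZ T) with hA
    set Bk := Ioc (NZ T) (NZ (2 * T)) with hBk
    set ℓ := ((κ : ℝ) + 1) * (C * Real.log (y + κ + 2)) with hℓ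
    have hlogpos : 0 ≤ Real.log (y + κ + 2) := Real.log_nonneg (by linarith)
    have hℓ0 : 0 ≤ ℓ := by positivity
    set F1 := A.filter fun n => y - κ ≤ u n with hF1
    set F2 := Bk.filter fun n => u n ≤ y + κ with hF2
    have huA : ∀ n ∈ A, u n ≤ y := by
      intro n hn
      have hn' := mem_Ioc.1 hn
      exact nrm_le (hγn n (by omega)).le ((hG.le_iff n (by omega) T).2 hn'.2)
    have huB : ∀ n ∈ Bk, y ≤ u n := by
      intro n hn
      have hn' := mem_Ioc.1 hn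
      have h1 : T < γ n := by
        by_contra hcon
        have := (hG.le_iff n (by omega) T).1 (not_lt.1 hcon)
        omega
      exact nrm_le hTT1 h1.le
    have hF1c : (F1.card : ℝ) ≤ ℓ := by
      have h1 := hC κ (y - κ) (by linarith) F1 (fun n hn => by
        rw [hF1, mem_filter] at hn
        refine ⟨?_, hn.2, ?_⟩
        · have := (mem_Ioc.1 hn.1).1
          omega
        · have := huA n hn.1
          simp only [hu] at this
          linarith)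
      refine h1.trans ?_
      rw [hℓ]
      apply mul_le_mul_of_nonneg_left _ (by positivity)
      apply mul_le_mul_of_nonneg_left _ hC0
      exact Real.log_le_log (by linarith) (by linarith)
    have hF2c : (F2.card : ℝ) ≤ ℓ := by
      exact hC κ y (by linarith) F2 (fun n hn => by
        rw [hF2, mem_filter] at hn
        refine ⟨?_, huB n hn.1, hn.2⟩
        have := (mem_Ioc.1 hn.1).1
        omega)
    have hterm : ∀ n ∈ A, ∀ m ∈ Bk, ∀ v : ℝ, |v| = u m - u n →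
        |f v| ≤ if n ∈ F1 ∧ m ∈ F2 then B else 0 := by
      intro n hn m hm v hv
      by_cases h : n ∈ F1 ∧ m ∈ F2
      · rw [if_pos h]
        exact hfB _
      · rw [if_neg h]
        have h1 := huA n hn
        have h2 := huB m hm
        have h3 : K ≤ |v| := by
          rw [hv]
          by_contra hcon
          apply h
          have h4 := not_le.1 hcon
          refine ⟨?_, ?_⟩
          · rw [hF1, mem_filter]
            exact ⟨hn, by linarith⟩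
          · rw [hF2, mem_filter]
            exact ⟨hm, by linarith⟩
        rw [hfK v h3, abs_zero]
    have hle : ∀ n ∈ A, ∀ m ∈ Bk, u n ≤ u m := fun n hn m hm => (huA n hn).trans (huB m hm)
    have hc1 : |∑ n ∈ A, ∑ m ∈ Bk, f (u n - u m)| ≤ B * (F1.card * F2.card) := by
      apply sum_abs_le A Bk F1 F2 _ B _ hB0
      intro n hn m hm
      apply hterm n hn m hm
      rw [abs_of_nonpos (by linarith [hle n hn m hm])]
      ring
    have hc2 : |∑ n ∈ Bk, ∑ m ∈ A, f (u n - u m)| ≤ B * (F2.card * F1.card) := by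
      apply sum_abs_le Bk A F2 F1 _ B _ hB0
      intro n hn m hm
      have h1 := hterm m hm n hn (u n - u m) (by
        rw [abs_of_nonneg (by linarith [hle m hm n hn])])
      refine h1.trans (le_of_eq ?_)
      simp only [and_comm]
    have hF12 : (F1.card : ℝ) * F2.card ≤ ℓ ^ 2 := by
      rw [sq]
      exact mul_le_mul hF1c hF2c (Nat.cast_nonneg _) hℓ0
    have hℓ2 : 2 * (B * ℓ ^ 2) ≤ ε1 * (y / 2) := by
      have h1 := hz0 (y + κ + 2) (by linarith)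
      have h2 : Real.log (y + κ + 2) ^ 2 ≤ δ * (2 * y) :=
        h1.trans (mul_le_mul_of_nonneg_left (by linarith) hδ0.le)
      have h3 : ℓ ^ 2 = ((κ + 1) * C) ^ 2 * Real.log (y + κ + 2) ^ 2 := by rw [hℓ]; ring
      rw [h3]
      set W := B * (((κ : ℝ) + 1) * C) ^ 2 with hW
      have hW0 : 0 ≤ W := by positivity
      have h4 : 2 * (B * (((κ + 1) * C) ^ 2 * Real.log (y + κ + 2) ^ 2)) =
          2 * W * Real.log (y + κ + 2) ^ 2 := by rw [hW]; ring
      rw [h4]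
      have h5 : 2 * W * Real.log (y + κ + 2) ^ 2 ≤ 2 * W * (δ * (2 * y)) :=
        mul_le_mul_of_nonneg_left h2 (by positivity)
      refine h5.trans ?_
      have h6 : W * δ ≤ ε1 / 8 := by
        rw [hδ]
        rw [mul_div_assoc', div_le_div_iff₀ (by positivity) (by norm_num)]
        nlinarith
      have hy0 : 0 ≤ y := by linarith
      nlinarith
    have hsp := split_sum (fun n m => f (u n - u m)) (NZ T) (NZ (2 * T)) hab
    have hPP : PP γ f (NZ (2 * T)) - PP γ f (NZ T) - c * ((NZ (2 * T) : ℝ) - NZ T) =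
        ((∑ n ∈ Bk, ∑ m ∈ Bk, f (u n - u m)) - c * ((NZ (2 * T) : ℝ) - NZ T)) +
        ((∑ n ∈ A, ∑ m ∈ Bk, f (u n - u m)) + ∑ n ∈ Bk, ∑ m ∈ A, f (u n - u m)) := by
      unfold PP
      rw [show (∑ n ∈ Ioc 0 (NZ (2 * T)), ∑ m ∈ Ioc 0 (NZ (2 * T)),
        f (nrm (γ n) - nrm (γ m))) = _ from hsp]
      ring
    rw [hPP]
    have t1 := abs_add_le ((∑ n ∈ Bk, ∑ m ∈ Bk, f (u n - u m)) - c * ((NZ (2 * T) : ℝ) - NZ T))
      ((∑ n ∈ A, ∑ m ∈ Bk, f (u n - u m)) + ∑ n ∈ Bk, ∑ m ∈ A, f (u n - u m))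
    have t2 := abs_add_le (∑ n ∈ A, ∑ m ∈ Bk, f (u n - u m)) (∑ n ∈ Bk, ∑ m ∈ A, f (u n - u m))
    have t3 : B * ((F1.card : ℝ) * F2.card) ≤ B * ℓ ^ 2 := mul_le_mul_of_nonneg_left hF12 hB0
    have t4 : B * ((F2.card : ℝ) * F1.card) ≤ B * ℓ ^ 2 := by rw [mul_comm (F2.card : ℝ)]; exact t3
    have t5 : ε1 * (y / 2) ≤ ε1 * ((NZ (2 * T) : ℝ) - NZ T) :=
      mul_le_mul_of_nonneg_left hBT hε10.le
    have hblk' : |(∑ n ∈ Bk, ∑ m ∈ Bk, f (u n - u m)) - c * ((NZ (2 * T) : ℝ) - NZ T)| ≤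
        η * ((NZ (2 * T) : ℝ) - NZ T) := hblk
    nlinarith
  -- summation over the dyadic blocks
  set C0 := B * (NZ (2 * T1) : ℝ) ^ 2 + |c| * NZ (2 * T1) with hC0def
  have hC00 : 0 ≤ C0 := by positivity
  have hsmall : ∀ X, X ≤ 2 * T1 → |PP γ f (NZ X) - c * NZ X| ≤ (η + ε1) * NZ X + C0 := by
    intro X hX
    have hM : NZ X ≤ NZ (2 * T1) := hG.NZ_mono hX
    have hMr : (NZ X : ℝ) ≤ NZ (2 * T1) := by exact_mod_cast hM
    have h1 : |PP γ f (NZ X)| ≤ B * (NZ X : ℝ) ^ 2 := by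
      unfold PP
      calc _ ≤ ∑ n ∈ Ioc 0 (NZ X), |∑ m ∈ Ioc 0 (NZ X), f (nrm (γ n) - nrm (γ m))| :=
            abs_sum_le_sum_abs _ _
        _ ≤ ∑ n ∈ Ioc 0 (NZ X), ∑ m ∈ Ioc 0 (NZ X), B :=
            sum_le_sum fun n _ => (abs_sum_le_sum_abs _ _).trans (sum_le_sum fun m _ => hfB _)
        _ = _ := by
            rw [sum_const, sum_const, Nat.card_Ioc, nsmul_eq_mul, nsmul_eq_mul, Nat.sub_zero]
            ring
    have h2 : B * (NZ X : ℝ) ^ 2 ≤ B * (NZ (2 * T1) : ℝ) ^ 2 := by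
      apply mul_le_mul_of_nonneg_left _ hB0
      exact pow_le_pow_left₀ (Nat.cast_nonneg _) hMr 2
    have h3 : |c * (NZ X : ℝ)| ≤ |c| * NZ (2 * T1) := by
      rw [abs_mul, abs_of_nonneg (Nat.cast_nonneg (NZ X) : (0 : ℝ) ≤ _)]
      exact mul_le_mul_of_nonneg_left hMr (abs_nonneg _)
    have h4 : 0 ≤ (η + ε1) * (NZ X : ℝ) := by positivity
    have h5 := abs_sub (PP γ f (NZ X)) (c * NZ X)
    linarith
  have hall : ∀ (k : ℕ) (X : ℝ), X ≤ 2 ^ k * (2 * T1) →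
      |PP γ f (NZ X) - c * NZ X| ≤ (η + ε1) * NZ X + C0 := by
    intro k
    induction k with
    | zero =>
      intro X hX
      exact hsmall X (by simpa using hX)
    | succ k ih =>
      intro X hX
      by_cases hX2 : X ≤ 2 * T1
      · exact hsmall X hX2
      · have hX2' := not_le.1 hX2
        have h1 := ih (X / 2) (by rw [pow_succ] at hX; linarith)
        have h2 := hcross (X / 2) (by linarith)
        have e : 2 * (X / 2) = X := by ring
        rw [e] at h2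
        have h3 := abs_add_le (PP γ f (NZ (X / 2)) - c * NZ (X / 2))
          (PP γ f (NZ X) - PP γ f (NZ (X / 2)) - c * ((NZ X : ℝ) - NZ (X / 2)))
        have e2 : PP γ f (NZ (X / 2)) - c * NZ (X / 2) +
          (PP γ f (NZ X) - PP γ f (NZ (X / 2)) - c * ((NZ X : ℝ) - NZ (X / 2))) =
          PP γ f (NZ X) - c * NZ X := by ring
        rw [e2] at h3
        nlinarith
  have hall' : ∀ X : ℝ, |PP γ f (NZ X) - c * NZ X| ≤ (η + ε1) * NZ X + C0 := by
    intro X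
    obtain ⟨k, hk⟩ := pow_unbounded_of_one_lt (X / (2 * T1)) (one_lt_two)
    rw [div_lt_iff₀ (by linarith)] at hk
    exact hall k X hk.le
  -- the end
  set ε2 := ε / (4 * (η + ε + |c - f 0| + 1)) with hε2
  have hε20 : 0 < ε2 := by positivity
  obtain ⟨T2, hT2⟩ := hG.cnt ε2 hε20
  set Ts := max T2 1 with hTs
  have hev1 : ∀ᶠ N : ℕ in atTop, nrm Ts ≤ (N : ℝ) :=
    tendsto_natCast_atTop_atTop.eventually_ge_atTop _
  have hev2 : ∀ᶠ N : ℕ in atTop, 4 * C0 / ε ≤ (N : ℝ) :=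
    tendsto_natCast_atTop_atTop.eventually_ge_atTop _
  filter_upwards [hev1, hev2, eventually_ge_atTop 1] with N hN1 hN2 hN3
  have hN0 : (0 : ℝ) < N := by exact_mod_cast hN3
  obtain ⟨Y, hY1, hY⟩ : ∃ Y : ℝ, 1 ≤ Y ∧ (N : ℝ) ≤ nrm Y := by
    obtain ⟨Y, hY⟩ := eventually_atTop.1 (nrm_tend.eventually_ge_atTop (N : ℝ))
    exact ⟨max Y 1, le_max_right _ _, hY _ (le_max_left _ _)⟩
  obtain ⟨X, ⟨hX1, hXY⟩, hX⟩ : ∃ X ∈ Set.Icc 1 Y, nrm X = N := by
    have hc : ContinuousOn nrm (Set.Icc 1 Y) := fun t ht =>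
      (nrm_cont (lt_of_lt_of_le one_pos ht.1)).continuousWithinAt
    have h1 : nrm 1 = 0 := by simp [nrm]
    obtain ⟨X, hX, hXe⟩ := intermediate_value_Icc hY1 hc ⟨by rw [h1]; exact hN0.le, hY⟩
    exact ⟨X, hX, hXe⟩
  have hXT : Ts ≤ X := by
    by_contra hcon
    have := nrm_lt hX1 (not_le.1 hcon)
    linarith
  have hcnt := hT2 X ((le_max_left _ _).trans hXT)
  rw [hX] at hcnt
  set M := NZ X with hM
  have hset : {p : ℕ × ℕ | 1 ≤ p.1 ∧ 1 ≤ p.2 ∧ p.1 ≠ p.2 ∧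
      nrm (γ p.1) ≤ N ∧ nrm (γ p.2) ≤ N} =
      (((Ioc 0 M ×ˢ Ioc 0 M).filter fun p : ℕ × ℕ => p.1 ≠ p.2 : Finset (ℕ × ℕ)) :
        Set (ℕ × ℕ)) := by
    have key : ∀ n, 1 ≤ n → (nrm (γ n) ≤ N ↔ n ≤ M) := by
      intro n hn
      rw [hM, ← hG.le_iff n hn X, ← hX]
      constructor
      · intro h
        by_contra hcon
        have := nrm_lt hX1 (not_le.1 hcon)
        linarith
      · intro h
        exact nrm_le (hγn n hn).le h
    ext ⟨n, m⟩
    simp only [Set.mem_setOf_eq, coe_filter, mem_product, mem_Ioc]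
    constructor
    · rintro ⟨h1, h2, h3, h4, h5⟩
      exact ⟨⟨⟨by omega, (key n h1).1 h4⟩, ⟨by omega, (key m h2).1 h5⟩⟩, h3⟩
    · rintro ⟨⟨⟨h1, h4⟩, ⟨h2, h5⟩⟩, h3⟩
      exact ⟨by omega, by omega, h3, (key n (by omega)).2 h4, (key m (by omega)).2 h5⟩
  have hsum : ∑ᶠ p ∈ {p : ℕ × ℕ | 1 ≤ p.1 ∧ 1 ≤ p.2 ∧ p.1 ≠ p.2 ∧
      nrm (γ p.1) ≤ N ∧ nrm (γ p.2) ≤ N}, f (nrm (γ p.1) - nrm (γ p.2)) =
      PP γ f M - M * f 0 := by
    rw [hset, finsum_mem_coe_finset, sum_filter, sum_product]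
    unfold PP
    have e1 : (M : ℝ) * f 0 = ∑ n ∈ Ioc 0 M, f 0 := by
      rw [sum_const, Nat.card_Ioc, nsmul_eq_mul, Nat.sub_zero]
    rw [e1, ← sum_sub_distrib]
    refine sum_congr rfl fun n hn => ?_
    have e2 : f 0 = ∑ m ∈ Ioc 0 M, if n = m then f 0 else 0 := by
      rw [sum_ite_eq, if_pos hn]
    rw [e2, ← sum_sub_distrib]
    refine sum_congr rfl fun m _ => ?_
    by_cases h : n = m
    · subst h
      simp
    · simp [h]
  have hsum2 : ∑ᶠ (p : ℕ × ℕ) (_ : 1 ≤ p.1 ∧ 1 ≤ p.2 ∧ p.1 ≠ p.2 ∧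
      nrm (γ p.1) ≤ N ∧ nrm (γ p.2) ≤ N), f (nrm (γ p.1) - nrm (γ p.2)) =
      PP γ f M - M * f 0 := hsum
  rw [hsum2]
  have hP := hall' X
  rw [← hM] at hP
  have e1 : (1 / N : ℝ) * (PP γ f M - M * f 0) - (c - f 0) =
      (PP γ f M - c * M) / N + (c - f 0) * (M / N - 1) := by
    field_simp
    ring
  rw [e1]
  have h1 : |(PP γ f M - c * M) / N| ≤ ((η + ε1) * M + C0) / N := by
    rw [abs_div, abs_of_pos hN0]
    exact div_le_div_of_nonneg_right hP hN0.le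
  have h2 : |(M : ℝ) / N - 1| ≤ ε2 := by
    rw [abs_le]
    constructor
    · rw [neg_le_sub_iff_le_add, ← sub_le_iff_le_add, le_div_iff₀ hN0] 
      linarith [hcnt.1]
    · rw [sub_le_iff_le_add, div_le_iff₀ hN0]
      linarith [hcnt.2]
  have h3 : ((η + ε1) * M + C0) / N ≤ (η + ε1) * (1 + ε2) + ε / 4 := by
    rw [div_le_iff₀ hN0]
    have a1 : (η + ε1) * (M : ℝ) ≤ (η + ε1) * ((1 + ε2) * N) :=
      mul_le_mul_of_nonneg_left hcnt.2 (by positivity)
    have a2 : C0 ≤ ε / 4 * N := by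
      rw [div_le_iff₀ hε] at hN2
      linarith
    nlinarith
  have h4 : |(c - f 0) * ((M : ℝ) / N - 1)| ≤ |c - f 0| * ε2 := by
    rw [abs_mul]
    exact mul_le_mul_of_nonneg_left h2 (abs_nonneg _)
  have h5 : (η + ε1 + |c - f 0|) * ε2 ≤ ε / 4 := by
    have habs := abs_nonneg (c - f 0)
    rw [hε2, mul_div_assoc', div_le_div_iff₀ (by positivity) (by norm_num)]
    have : η + ε1 + |c - f 0| ≤ η + ε + |c - f 0| + 1 := by rw [hε1]; linarith
    nlinarith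
  have h6 := abs_add_le ((PP γ f M - c * M) / N) ((c - f 0) * ((M : ℝ) / N - 1))
  have h7 : (η + ε1) * (1 + ε2) = η + ε / 4 + (η + ε1) * ε2 := by rw [hε1]; ring
  nlinarith

end Pool.Agent.Y447.SR
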