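import Mathlib
import Pool.Agent.Y748.SR.Stm4

set_option autoImplicit false
set_option linter.all false

/-! # Project SR: (TAIL) -/

open Finset

namespace Pool.Agent.Y447.SR

/-- number of pairs with a given difference -/
noncomputable def Dn (S : Finset ℕ) (f : ℕ → ℤ) (k : ℤ) : ℝ :=
  ∑ n ∈ S, ∑ m ∈ S, if f n - f m = k then 1 else 0

/-- number of elements of a cell -/
noncomputable def cel (S : Finset ℕ) (f : ℕ → ℤ) (j : ℤ) : ℝ := ((S.filter fun m => f m = j).card : ℝ)

theorem cel_nonneg (S : Finset ℕ) (f : ℕ → ℤ) (j : ℤ) : 0 ≤ cel S f j := Nat.cast_nonneg _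

theorem Dn_eq (S : Finset ℕ) (f : ℕ → ℤ) (k : ℤ) :
    Dn S f k = ∑ j ∈ S.image f, cel S f j * cel S f (j - k) := by
  have h1 : ∀ n ∈ S, (∑ m ∈ S, if f n - f m = k then (1 : ℝ) else 0) = cel S f (f n - k) := by
    intro n _
    unfold cel
    rw [card_filter]
    push_cast
    refine sum_congr rfl fun m _ => ?_
    by_cases h : f n - f m = k
    · rw [if_pos h, if_pos (by omega)]
    · rw [if_neg h, if_neg (by omega)]
  unfold Dn
  rw [sum_congr rfl h1, sum_comp (fun j => cel S f (j - k)) f]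
  refine sum_congr rfl fun j _ => ?_
  rw [nsmul_eq_mul]
  rfl

theorem Dn_zero_eq (S : Finset ℕ) (f : ℕ → ℤ) :
    Dn S f 0 = ∑ j ∈ S.image f, cel S f j ^ 2 := by
  rw [Dn_eq]
  refine sum_congr rfl fun j _ => ?_
  rw [sub_zero, sq]

theorem Dn_le (S : Finset ℕ) (f : ℕ → ℤ) (k : ℤ) : Dn S f k ≤ Dn S f 0 := by
  classical
  rw [Dn_zero_eq, Dn_eq]
  have h1 : ∑ j ∈ S.image f, cel S f (j - k) ^ 2 ≤ ∑ j ∈ S.image f, cel S f j ^ 2 := by
    have hinj : Set.InjOn (fun j : ℤ => j - k) ((S.image f : Finset ℤ) : Set ℤ) := by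
      intro a _ b _ hab
      simpa using hab
    rw [← sum_image (f := fun i => cel S f i ^ 2) hinj]
    calc _ ≤ ∑ j ∈ (S.image f).image (fun j => j - k) ∪ S.image f, cel S f j ^ 2 :=
          sum_le_sum_of_subset_of_nonneg subset_union_left fun _ _ _ => sq_nonneg _
      _ = ∑ j ∈ S.image f, cel S f j ^ 2 := by
          symm
          apply sum_subset subset_union_right
          intro j _ hj
          have : S.filter (fun m => f m = j) = ∅ := by
            rw [filter_eq_empty_iff]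
            intro m hm h
            exact hj (mem_image.2 ⟨m, hm, h⟩)
          unfold cel
          rw [this]; simp
  have h2 : ∀ j, cel S f j * cel S f (j - k) ≤ (cel S f j ^ 2 + cel S f (j - k) ^ 2) / 2 := by
    intro j
    nlinarith [sq_nonneg (cel S f j - cel S f (j - k))]
  calc _ ≤ ∑ j ∈ S.image f, (cel S f j ^ 2 + cel S f (j - k) ^ 2) / 2 := sum_le_sum fun j _ => h2 j
    _ = ((∑ j ∈ S.image f, cel S f j ^ 2) + ∑ j ∈ S.image f, cel S f (j - k) ^ 2) / 2 := by
        rw [← sum_div, sum_add_distrib]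
    _ ≤ _ := by linarith

theorem sum_W (S : Finset ℕ) (f : ℕ → ℤ) (W : ℕ → ℝ) (hW : ∀ k, 0 ≤ W k) (L : ℕ)
    (hL : ∀ n ∈ S, ∀ m ∈ S, (f n - f m).natAbs < L) :
    ∑ n ∈ S, ∑ m ∈ S, W (f n - f m).natAbs ≤ 2 * Dn S f 0 * ∑ k ∈ range L, W k := by
  have h1 : ∑ n ∈ S, ∑ m ∈ S, W (f n - f m).natAbs ≤ ∑ n ∈ S, ∑ m ∈ S, ∑ k ∈ range L,
      W k * ((if f n - f m = (k : ℤ) then 1 else 0) + (if f n - f m = -(k : ℤ) then 1 else 0)) := by
    refine sum_le_sum fun n hn => sum_le_sum fun m hm => ?_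
    set a := f n - f m with ha
    have h2 : W a.natAbs ≤ W a.natAbs * ((if a = (a.natAbs : ℤ) then 1 else 0) +
        (if a = -(a.natAbs : ℤ) then 1 else 0)) := by
      have h3 : (1 : ℝ) ≤ ((if a = (a.natAbs : ℤ) then 1 else 0) +
        (if a = -(a.natAbs : ℤ) then 1 else 0)) := by
        rcases Int.natAbs_eq a with h | h
        · rw [if_pos h]
          have : (0 : ℝ) ≤ (if a = -(a.natAbs : ℤ) then 1 else 0) := by split_ifs <;> norm_num
          linarith
        · rw [if_pos h]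
          have : (0 : ℝ) ≤ (if a = (a.natAbs : ℤ) then 1 else 0) := by split_ifs <;> norm_num
          linarith
      nlinarith [hW a.natAbs]
    refine h2.trans ?_
    refine single_le_sum (f := fun k : ℕ => W k * ((if a = (k : ℤ) then 1 else 0) +
        (if a = -(k : ℤ) then 1 else 0))) ?_ (mem_range.2 (hL n hn m hm))
    intro k _
    apply mul_nonneg (hW k)
    split_ifs <;> norm_num
  refine h1.trans ?_
  have h4 : ∑ n ∈ S, ∑ m ∈ S, ∑ k ∈ range L,
      W k * ((if f n - f m = (k : ℤ) then 1 else 0) + (if f n - f m = -(k : ℤ) then 1 else 0)) =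
      ∑ k ∈ range L, W k * (Dn S f k + Dn S f (-k)) := by
    rw [sum_congr rfl fun n _ => sum_comm, sum_comm]
    refine sum_congr rfl fun k _ => ?_
    unfold Dn
    rw [← sum_add_distrib, mul_sum]
    refine sum_congr rfl fun n _ => ?_
    rw [← sum_add_distrib, mul_sum]
  rw [h4, mul_sum]
  refine sum_le_sum fun k _ => ?_
  have h5 := Dn_le S f k
  have h6 := Dn_le S f (-k)
  nlinarith [hW k]

theorem w_bound (K : ℕ) (hK : 1 ≤ K) (L : ℕ) (hL : K + 1 ≤ L) :
    ∑ k ∈ range L, (if K ≤ k then 1 / (1 + (max (K : ℝ) ((k : ℝ) - 1)) ^ 2) else 0) ≤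
      3 / K - 2 / ((L : ℝ) - 1) := by
  have hK0 : (1 : ℝ) ≤ K := by exact_mod_cast hK
  induction L, hL using Nat.le_induction with
  | base =>
    rw [sum_range_succ, sum_eq_zero]
    · rw [zero_add, if_pos le_rfl, max_eq_left (by linarith)]
      push_cast
      rw [add_sub_cancel_right]
      have h1 : (3 : ℝ) / K - 2 / K = 1 / K := by ring
      rw [h1]
      apply one_div_le_one_div_of_le (by linarith)
      nlinarith
    · intro k hk
      rw [if_neg]
      have := mem_range.1 hk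
      omega
  | succ L hL ih =>
    rw [sum_range_succ, if_pos (by omega)]
    have hLr : (K : ℝ) + 1 ≤ L := by exact_mod_cast hL
    rw [max_eq_right (by linarith)]
    push_cast
    have hj : (1 : ℝ) ≤ (L : ℝ) - 1 := by linarith
    have h2 : 1 / (1 + ((L : ℝ) - 1) ^ 2) ≤ 2 / ((L : ℝ) - 1) - 2 / ((L : ℝ) + 1 - 1) := by
      have e : 2 / ((L : ℝ) - 1) - 2 / ((L : ℝ) + 1 - 1) = 2 / (((L : ℝ) - 1) * L) := by
        rw [add_sub_cancel_right]
        have z1 : (L : ℝ) ≠ 0 := by linarith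
        have z2 : (L : ℝ) - 1 ≠ 0 := by linarith
        field_simp
        ring
      rw [e, div_le_div_iff₀ (by positivity) (by nlinarith)]
      nlinarith
    linarith

theorem t_TAIL : Pool.Agent.Y748.SR.S_TAIL := by
  intro S x K hK
  have hK0 : (1 : ℝ) ≤ K := by exact_mod_cast hK
  set f : ℕ → ℤ := fun n => ⌊x n⌋ with hf
  set PP := ∑ n ∈ S, ∑ m ∈ S, (if |x n - x m| ≤ 1 then 1 else 0 : ℝ) with hPP
  have hPP0 : Dn S f 0 ≤ PP := by
    refine sum_le_sum fun n _ => sum_le_sum fun m _ => ?_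
    by_cases h : f n - f m = 0
    · rw [if_pos h, if_pos]
      have h2 : ⌊x n⌋ = ⌊x m⌋ := by
        have : f n = f m := by omega
        exact this
      exact (Int.abs_sub_lt_one_of_floor_eq_floor h2).le
    · rw [if_neg h]
      split_ifs <;> norm_num
  have hD0 : 0 ≤ Dn S f 0 := by
    refine sum_nonneg fun n _ => sum_nonneg fun m _ => ?_
    split_ifs <;> norm_num
  obtain ⟨L, hL1, hL⟩ : ∃ L : ℕ, K + 1 ≤ L ∧ ∀ n ∈ S, ∀ m ∈ S, (f n - f m).natAbs < L := by
    refine ⟨K + 1 + ∑ n ∈ S, ∑ m ∈ S, ((f n - f m).natAbs + 1), by omega, fun n hn m hm => ?_⟩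
    have h1 : (f n - f m).natAbs + 1 ≤ ∑ m ∈ S, ((f n - f m).natAbs + 1) :=
      single_le_sum (f := fun m => (f n - f m).natAbs + 1) (fun _ _ => Nat.zero_le _) hm
    have h2 : ∑ m ∈ S, ((f n - f m).natAbs + 1) ≤ ∑ n ∈ S, ∑ m ∈ S, ((f n - f m).natAbs + 1) :=
      single_le_sum (f := fun n => ∑ m ∈ S, ((f n - f m).natAbs + 1))
        (fun _ _ => Nat.zero_le _) hn
    omega
  refine ⟨?_, ?_⟩
  · set W : ℕ → ℝ := fun k => if K ≤ k then 1 / (1 + (max (K : ℝ) ((k : ℝ) - 1)) ^ 2) else 0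
      with hW
    have hW0 : ∀ k, 0 ≤ W k := by
      intro k
      rw [hW]
      simp only
      split_ifs
      · positivity
      · exact le_rfl
    have h1 : (∑ n ∈ S, ∑ m ∈ S, if (K : ℝ) ≤ |x n - x m| then 1 / (1 + (x n - x m) ^ 2) else 0) ≤
        ∑ n ∈ S, ∑ m ∈ S, W (f n - f m).natAbs := by
      refine sum_le_sum fun n _ => sum_le_sum fun m _ => ?_
      by_cases h : (K : ℝ) ≤ |x n - x m|
      · rw [if_pos h]
        have key : ∀ a b : ℝ, (K : ℝ) ≤ a - b →
            K ≤ (⌊a⌋ - ⌊b⌋).natAbs ∧ (((⌊a⌋ - ⌊b⌋).natAbs : ℕ) : ℝ) - 1 ≤ a - b := by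
          intro a b hab
          have e1 : (⌊b⌋ : ℝ) ≤ b := Int.floor_le b
          have e2 : a < ⌊a⌋ + 1 := Int.lt_floor_add_one a
          have e3 : b < ⌊b⌋ + 1 := Int.lt_floor_add_one b
          have e4 : (⌊a⌋ : ℝ) ≤ a := Int.floor_le a
          have e5 : ⌊b⌋ + K ≤ ⌊a⌋ := by
            apply Int.le_floor.2
            push_cast
            linarith
          have e6 : (((⌊a⌋ - ⌊b⌋).natAbs : ℕ) : ℤ) = ⌊a⌋ - ⌊b⌋ := by omega
          have e7 : (((⌊a⌋ - ⌊b⌋).natAbs : ℕ) : ℝ) = (⌊a⌋ : ℝ) - ⌊b⌋ := by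
            rw [← Int.cast_natCast (R := ℝ), e6, Int.cast_sub]
          refine ⟨by omega, ?_⟩
          rw [e7]
          linarith
        have key2 : K ≤ (f n - f m).natAbs ∧
            (((f n - f m).natAbs : ℕ) : ℝ) - 1 ≤ |x n - x m| := by
          rcases le_total 0 (x n - x m) with h0 | h0
          · rw [abs_of_nonneg h0] at h ⊢
            exact key _ _ h
          · rw [abs_of_nonpos h0] at h ⊢
            have := key (x m) (x n) (by linarith)
            have e8 : (f n - f m).natAbs = (⌊x m⌋ - ⌊x n⌋).natAbs := by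
              change (⌊x n⌋ - ⌊x m⌋).natAbs = _
              rw [← Int.natAbs_neg, neg_sub]
            rw [e8]
            exact ⟨this.1, by linarith [this.2]⟩
        rw [hW]
        simp only
        rw [if_pos key2.1]
        apply one_div_le_one_div_of_le (by positivity)
        have h3 : max (K : ℝ) ((((f n - f m).natAbs : ℕ) : ℝ) - 1) ≤ |x n - x m| :=
          max_le h key2.2
        have h4 : (0 : ℝ) ≤ max (K : ℝ) ((((f n - f m).natAbs : ℕ) : ℝ) - 1) :=
          (by linarith : (0 : ℝ) ≤ K).trans (le_max_left _ _)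
        have h5 := pow_le_pow_left₀ h4 h3 2
        rw [sq_abs] at h5
        linarith
      · rw [if_neg h]
        exact hW0 _
    have h2 := sum_W S f W hW0 L hL
    have h3 := w_bound K hK L hL1
    have h3' : ∑ k ∈ range L, W k ≤ 4 / K := by
      have hLr : (K : ℝ) + 1 ≤ L := by exact_mod_cast hL1
      have e1 : (0 : ℝ) ≤ 2 / ((L : ℝ) - 1) := by
        apply div_nonneg (by norm_num) (by linarith)
      have e2 : (3 : ℝ) / K ≤ 4 / K := by
        apply div_le_div_of_nonneg_right (by norm_num) (by linarith)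
      refine h3.trans ?_
      linarith
    have hWs : 0 ≤ ∑ k ∈ range L, W k := sum_nonneg fun k _ => hW0 k
    calc _ ≤ 2 * Dn S f 0 * ∑ k ∈ range L, W k := h1.trans h2
      _ ≤ 2 * PP * (4 / K) := by
          apply mul_le_mul (by linarith) h3' hWs (by linarith)
      _ = 8 / K * PP := by ring
  · set W : ℕ → ℝ := fun k => if k ≤ K then 1 else 0 with hW
    have hW0 : ∀ k, 0 ≤ W k := by
      intro k
      rw [hW]
      simp only
      split_ifs <;> norm_num
    have h1 : (∑ n ∈ S, ∑ m ∈ S, (if |x n - x m| ≤ (K : ℝ) then 1 else 0 : ℝ)) ≤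
        ∑ n ∈ S, ∑ m ∈ S, W (f n - f m).natAbs := by
      refine sum_le_sum fun n _ => sum_le_sum fun m _ => ?_
      by_cases h : |x n - x m| ≤ (K : ℝ)
      · rw [if_pos h]
        have h' := abs_le.1 h
        have e1 : ⌊x n⌋ ≤ ⌊x m⌋ + K := by
          have : ⌊x n⌋ ≤ ⌊x m + (K : ℕ)⌋ := Int.floor_le_floor (by push_cast; linarith)
          rwa [Int.floor_add_natCast] at this
        have e2 : ⌊x m⌋ ≤ ⌊x n⌋ + K := by
          have : ⌊x m⌋ ≤ ⌊x n + (K : ℕ)⌋ := Int.floor_le_floor (by push_cast; linarith)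
          rwa [Int.floor_add_natCast] at this
        have e3 : (f n - f m).natAbs ≤ K := by
          change (⌊x n⌋ - ⌊x m⌋).natAbs ≤ K
          omega
        rw [hW]
        simp only
        rw [if_pos e3]
      · rw [if_neg h]
        exact hW0 _
    have h2 := sum_W S f W hW0 L hL
    have h3 : ∑ k ∈ range L, W k ≤ 2 * K := by
      have e1 : ∑ k ∈ range L, W k = ((range L).filter fun k => k ≤ K).card := by
        rw [hW, card_filter]
        push_cast
        rfl
      rw [e1]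
      have e2 : ((range L).filter fun k => k ≤ K).card ≤ K + 1 := by
        calc _ ≤ (range (K + 1)).card := card_le_card (by
              intro k hk
              rw [mem_filter] at hk
              rw [mem_range]
              omega)
          _ = K + 1 := card_range _
      have e3 : (((range L).filter fun k => k ≤ K).card : ℝ) ≤ K + 1 := by exact_mod_cast e2
      linarith
    have hWs : 0 ≤ ∑ k ∈ range L, W k := sum_nonneg fun k _ => hW0 k
    calc _ ≤ 2 * Dn S f 0 * ∑ k ∈ range L, W k := h1.trans h2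
      _ ≤ 2 * PP * (2 * K) := by
          apply mul_le_mul (by linarith) h3 hWs (by linarith)
      _ = 4 * K * PP := by ring

end Pool.Agent.Y447.SR
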